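import Pool.Agent.N105.LT.Defs

/-! Project LG (helper105): the algebra with the slice Fisher information (helper667). -/

set_option autoImplicit false

open MeasureTheory Set Filter Topology Real
open scoped Matrix

namespace Pool.Agent.N667.LG
open LTd Pool.Agent.N105.LT

theorem alg {n : ℕ} (R S Q P : Mat n) (hR : ∀ i j, R i j = R j i) (hP : ∀ i j, P i j = P j i)
    (key : ∀ X Y : Mat n,
      0 ≤ (X * Q * Xᵀ).trace - 2 * (X * S * Yᵀ).trace + (Y * R * Yᵀ).trace)
    (f : ℝ) (hf : FB R S f) :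
    2 * (S * (P * R)).trace + 2 * (S * (R * P)).trace ≤
      Q.trace + 3 * f + (P * P * (R * R * R)).trace := by
  have hRt : Rᵀ = R := Matrix.ext fun i j => hR j i
  have hPt : Pᵀ = P := Matrix.ext fun i j => hP j i
  have h1 := key 1 (P * R - (1 / 2 : ℝ) • (R * P))
  have hYt : (P * R - (1 / 2 : ℝ) • (R * P))ᵀ = R * P - (1 / 2 : ℝ) • (P * R) := by
    rw [Matrix.transpose_sub, Matrix.transpose_smul, Matrix.transpose_mul, Matrix.transpose_mul,
      hRt, hPt]
  have e1 : (P * R - (1 / 2 : ℝ) • (R * P)) * R * (R * P - (1 / 2 : ℝ) • (P * R)) =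
      P * (R * (R * (R * P))) - (1 / 2 : ℝ) • (P * (R * (R * (P * R)))) -
        (1 / 2 : ℝ) • (R * (P * (R * (R * P)))) + (1 / 4 : ℝ) • (R * (P * (R * (P * R)))) := by
    simp only [sub_mul, mul_sub, Matrix.smul_mul, Matrix.mul_smul, smul_smul, Matrix.mul_assoc]
    norm_num
    abel
  have e2 : (P * (R * (R * (R * P)))).trace = (P * P * (R * R * R)).trace := by
    rw [Matrix.trace_mul_comm P (R * (R * (R * P))), Matrix.trace_mul_comm (P * P) (R * R * R)]
    simp only [Matrix.mul_assoc]
  have e3 : (P * (R * (R * (P * R)))).trace = (P * R * P * (R * R)).trace := by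
    have : P * (R * (R * (P * R))) = (P * R * R) * (P * R) := by simp only [Matrix.mul_assoc]
    rw [this, Matrix.trace_mul_comm]
    simp only [Matrix.mul_assoc]
  have e4 : (R * (P * (R * (R * P)))).trace = (P * R * P * (R * R)).trace := by
    have : R * (P * (R * (R * P))) = (R * P * R * R) * P := by simp only [Matrix.mul_assoc]
    rw [this, Matrix.trace_mul_comm]
    simp only [Matrix.mul_assoc]
  have e5 : (R * (P * (R * (P * R)))).trace = (P * R * P * (R * R)).trace := by
    rw [Matrix.trace_mul_comm]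
    simp only [Matrix.mul_assoc]
  have h2 := hf ((1 / 2 : ℝ) • P) (fun i j => by
    rw [Matrix.smul_apply, Matrix.smul_apply, hP])
  rw [hYt, e1, Matrix.transpose_one, one_mul, mul_one, one_mul, Matrix.trace_add, Matrix.trace_sub,
    Matrix.trace_sub, Matrix.trace_smul, Matrix.trace_smul, Matrix.trace_smul, e2, e3, e4, e5,
    mul_sub, Matrix.mul_smul, Matrix.trace_sub, Matrix.trace_smul] at h1
  have e6 : S * ((1 / 2 : ℝ) • P) * R = (1 / 2 : ℝ) • (S * (P * R)) := by
    rw [Matrix.mul_smul, Matrix.smul_mul, Matrix.mul_assoc]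
  have e7 : (1 / 2 : ℝ) • P * R * ((1 / 2 : ℝ) • P) * (R * R) =
      (1 / 4 : ℝ) • (P * R * P * (R * R)) := by
    simp only [Matrix.smul_mul, Matrix.mul_smul, smul_smul]
    norm_num
  rw [e6, e7, Matrix.trace_smul, Matrix.trace_smul] at h2
  simp only [smul_eq_mul] at h1 h2
  linarith

end Pool.Agent.N667.LG
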